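import Pool.Agent.Y483.PI.Main
import Pool.Agent.Y477.IW.UFin
import Pool.Agent.Y477.IW.USThm

/-!
Semidirect products `N ⋊ Γ` with retractions of `N` indexed by the subsets of a set with an action of
`Γ` with finite point stabilizers: the theorems of `Pool.Agent.Y477.IW` for an arbitrary functor with
integral transfers along pairs of cocycles. Adapted from the files USup, USum, USThm of
`Pool.Agent.Y477.IW`.
-/

namespace Pool.Agent.Q143.KZ

open Pool.Agent.Y483 Pool.Agent.Y483.PI Pool.Agent.Y477.IW Pointwise CategoryTheory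

universe v w

section Pre

variable {L : GrpCat.{0} ⥤ AddCommGrpCat.{w}}

theorem lcomp {G K M : Type} [Group G] [Group K] [Group M] (g : K →* M) (f : G →* K)
    (x : FO L G) : fm L (g.comp f) x = fm L g (fm L f x) := (fm_comp g f x).symm

/-- Every class of `L(G)` is fixed by all endomorphisms of `G` which fix the elements of some
finite set. -/
def ContL (L : GrpCat.{0} ⥤ AddCommGrpCat.{w}) : Prop :=
  ∀ (G : Type) [Group G] (x : FO L G),
    ∃ X : Finset G, ∀ f : G →* G, (∀ g ∈ X, f g = g) → fm L f x = x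

/-- The subgroup of `L(N)` generated by the elements `γ z - z`. -/
noncomputable def coL {Γ N : Type} [Group Γ] [Group N] (L : GrpCat.{0} ⥤ AddCommGrpCat.{w})
    (φ : Γ →* MulAut N) : AddSubgroup (FO L N) :=
  AddSubgroup.closure {w | ∃ (γ : Γ) (z : FO L N), w = fm L (φ γ).toMonoidHom z - z}

theorem coL_mem {Γ N : Type} [Group Γ] [Group N] {φ : Γ →* MulAut N} (γ : Γ) (z : FO L N) :
    fm L (φ γ).toMonoidHom z - z ∈ coL L φ :=
  AddSubgroup.subset_closure ⟨γ, z, rfl⟩

/-- A natural transformation from `H` to `L`. -/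
structure LTr (H : GFun.{v}) (L : GrpCat.{0} ⥤ AddCommGrpCat.{w}) where
  /-- The components. -/
  app : ∀ (G : Type) [Group G], H.obj G →+ FO L G
  nat : ∀ {G K : Type} [Group G] [Group K] (f : G →* K) (x : H.obj G),
    fm L f (app G x) = app K (H.map f x)

/-- A natural transformation of functors on the category of groups. -/
noncomputable def toLT {H : GrpCat.{0} ⥤ AddCommGrpCat.{w}} (hH : InnerTrivial H) (α : H ⟶ L) :
    LTr (toG H hH) L where
  app G _ := (α.app (GrpCat.of G)).hom
  nat f x := by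
    have h := α.naturality (GrpCat.ofHom f)
    exact (congrArg (fun g => g.hom x) h).symm

/-- The key identity for a functor with transfers along pairs. -/
theorem keyP (hE : HasPTI L) {G A K G₀ G₁ : Type} [Group G] [MulAction G A] [Group K] [Group G₀]
    [Group G₁] (κ : FinCocycle G A K) (j : G₀ →* G) (hj : ∀ g (a : A), j g • a = a)
    (Y : Finset A) (hY : ∀ a ∉ Y, ∀ g, κ.c (j g) a = 1) (i : G₁ →* G)
    (hi : ∀ g a, κ.c (i g) a = 1) (x : FO L G₀) (y : FO L G₁)
    (hxy : fm L j x = fm L i y) :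
    ∑ a ∈ Y, (fm L (κ.label j hj a) x - fm L (1 : G₀ →* K) x) = 0 := by
  obtain ⟨M, iM, Φ, ι, hι, h⟩ := hE G A K (ipair κ)
  have h1 := h G₀ j Y (fun a => κ.label j hj a) (fun _ => 1)
    (fun a _ g => ⟨hj g a, rfl, rfl⟩) (fun a ha g => hY a ha g) x
  have h2 := h G₁ i ∅ (fun _ => 1) (fun _ => 1) (fun a ha => absurd ha (Finset.notMem_empty a))
    (fun a _ g => hi g a) y
  rw [Finset.sum_empty, map_zero] at h2
  apply hι
  rw [map_zero]
  refine h1.symm.trans (Eq.trans ?_ h2)
  exact congrArg Φ hxy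

end Pre

section

variable {Γ N X : Type} [Group Γ] [Group N] [MulAction Γ X] {φ : Γ →* MulAut N}
  {L : GrpCat.{0} ⥤ AddCommGrpCat.{w}} (us : USupp φ X) (hE : HasPTI L)

include hE in
/-- The key identity for retractions indexed by the subsets of `X`. -/
theorem key_u [DecidableEq X] (hst : ∀ v : X, Finite (MulAction.stabilizer Γ v)) (F : Finset X)
    (x : FO L N)
    (hx : fm L (us.e (F : Set X)) x = x) (y : FO L Γ)
    (hxy : fm L (SemidirectProduct.inl : N →* N ⋊[φ] Γ) x =
      fm L (SemidirectProduct.inr : Γ →* N ⋊[φ] Γ) y) (T : Finset X) (Y : Finset Γ)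
    (hY : ∀ y ∉ Y, Disjoint (y • T) F) :
    ∑ a ∈ Y, (fm L (φ a⁻¹).toMonoidHom (fm L (us.e ((a • T : Finset X) : Set X)) x) -
      fm L (1 : N →* N) x) = 0 := by
  classical
  have hj : ∀ (g : N) (a : Pt φ), us.incl (F : Set X) g • a = a := by
    intro g a
    exact one_mul (show Γ from a)
  have hlab : ∀ a ∉ (Y : Finset (Pt φ)), ∀ g : N,
      (us.cocycle hst T).c (us.incl (F : Set X) g) a = 1 := by
    intro a ha g
    apply Subtype.ext
    change us.e T (φ ((1 : Γ) * (show Γ from a))⁻¹ (us.e (F : Set X) g)) = 1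
    rw [one_mul, us.equivariant]
    rw [us.inter]
    have hd : (T : Set X) ∩ ((show Γ from a)⁻¹ • (F : Set X)) = ∅ := by
      rw [← Set.disjoint_iff_inter_eq_empty, Set.disjoint_left]
      intro t ht ht'
      have h2 := Finset.disjoint_left.mp (hY a ha)
        (Finset.smul_mem_smul_finset (a := (show Γ from a)) ht)
      apply h2
      rw [Set.mem_inv_smul_set_iff] at ht'
      simpa using ht'
    rw [hd, us.empty]
  have hi : ∀ (g : Γ) (a : Pt φ), (us.cocycle hst T).c
      ((SemidirectProduct.inr : Γ →* N ⋊[φ] Γ) g) a = 1 := by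
    intro g a
    apply Subtype.ext
    change us.e T (φ (g * (show Γ from a))⁻¹ (1 : N)) = 1
    rw [map_one, map_one]
  have hxy' : fm L (us.incl (F : Set X)) x =
      fm L (SemidirectProduct.inr : Γ →* N ⋊[φ] Γ) y := by
    rw [← hxy]
    conv_rhs => rw [← hx]
    rw [← lcomp]
    rfl
  have hk := keyP hE (us.cocycle hst T) (us.incl (F : Set X)) hj Y hlab
    (SemidirectProduct.inr : Γ →* N ⋊[φ] Γ) hi x y hxy'
  have hk2 := congrArg (fm L (us.e (T : Set X)).range.subtype) hk
  rw [map_zero] at hk2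
  refine Eq.trans ?_ ((map_sum (fm L (us.e (T : Set X)).range.subtype) _ _).symm.trans hk2)
  refine Finset.sum_congr (ι := Γ) rfl ?_
  intro a _
  have e1 : ((us.e (T : Set X)).range.subtype).comp (1 : N →* us.part (T : Set X)) = 1 := by
    ext1 n; rfl
  have e2 : ((us.e (T : Set X)).range.subtype).comp
      ((us.cocycle hst T).label (us.incl (F : Set X)) hj a) =
      ((φ a⁻¹).toMonoidHom.comp (us.e ((a • T : Finset X) : Set X))).comp (us.e (F : Set X)) := by
    ext1 n
    change us.e T (φ ((1 : Γ) * a)⁻¹ (us.e (F : Set X) n)) =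
      φ a⁻¹ (us.e ((a • T : Finset X) : Set X) (us.e (F : Set X) n))
    have h6 := us.equivariant a⁻¹ (a • (T : Set X)) (us.e (F : Set X) n)
    rw [inv_smul_smul] at h6
    rw [one_mul, Finset.coe_smul_finset, h6]
  have e3 : fm L (us.e (T : Set X)).range.subtype (fm L
      ((us.cocycle hst T).label (us.incl (F : Set X)) hj a) x) =
      fm L (φ a⁻¹).toMonoidHom (fm L (us.e ((a • T : Finset X) : Set X)) x) := by
    have e4 := congrArg (fun f => fm L f x) e2
    refine (lcomp _ _ x).symm.trans (e4.trans ?_)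
    rw [lcomp _ (us.e (F : Set X)), hx, lcomp]
  have e5 : fm L (us.e (T : Set X)).range.subtype
      (fm L (1 : N →* us.part (T : Set X)) x) = fm L (1 : N →* N) x := by
    rw [← lcomp, e1]
  refine Eq.trans ?_ (map_sub (fm L (us.e (T : Set X)).range.subtype) _ _).symm
  exact (congrArg₂ (fun u v => u - v) e3 e5).symm

include hE in
/-- The Möbius transform of the key identity. -/
theorem key_moeb [DecidableEq X] (hst : ∀ v : X, Finite (MulAction.stabilizer Γ v))
    (F : Finset X) (x : FO L N)
    (hx : fm L (us.e (F : Set X)) x = x) (y : FO L Γ)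
    (hxy : fm L (SemidirectProduct.inl : N →* N ⋊[φ] Γ) x =
      fm L (SemidirectProduct.inr : Γ →* N ⋊[φ] Γ) y) (S : Finset X) (hS : S.Nonempty)
    (Y : Finset Γ) (hY : ∀ y ∉ Y, Disjoint (y • S) F) :
    ∑ a ∈ Y, fm L (φ a⁻¹).toMonoidHom
      (moeb (fun U : Finset X => fm L (us.e (U : Set X)) x) (a • S)) = 0 := by
  classical
  set c : Finset X → FO L N := fun U => fm L (us.e (U : Set X)) x with hc
  have h1 : ∀ a : Γ, moeb c (a • S) = moeb (fun U => c U - fm L (1 : N →* N) x) (a • S) :=
    fun a => (moeb_sub_const c _ (a • S) hS.smul_finset).symm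
  have hkey : ∀ U ⊆ S, ∑ a ∈ Y, fm L (φ a⁻¹).toMonoidHom
      (c (a • U) - fm L (1 : N →* N) x) = 0 := by
    intro U hU
    have hYU : ∀ y ∉ Y, Disjoint (y • U) F := fun y hy =>
      Finset.disjoint_of_subset_left (Finset.smul_finset_subset_smul_finset hU) (hY y hy)
    have h2 := key_u us hE hst F x hx y hxy U Y hYU
    rw [← h2]
    apply Finset.sum_congr rfl
    intro a _
    rw [map_sub, ← lcomp _ (1 : N →* N)]
    have e : (φ a⁻¹).toMonoidHom.comp (1 : N →* N) = 1 := by
      ext1 n; exact map_one (φ a⁻¹)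
    rw [e]
  simp_rw [h1, moeb_smulV, map_sum, map_zsmul]
  rw [Finset.sum_comm]
  apply Finset.sum_eq_zero
  intro U hU
  rw [← Finset.smul_sum, hkey U (Finset.mem_powerset.mp hU), smul_zero]

end

section

variable {Γ N X : Type} [Group Γ] [Group N] [MulAction Γ X] {φ : Γ →* MulAut N} {H : GFun.{v}}
  {L : GrpCat.{0} ⥤ AddCommGrpCat.{w}} (us : USupp φ X) (hE : HasPTI L)

/-- The subgroup generated by the images of the kernels of `Γ` and of the parts of `N` supported on
the members of the family. -/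
noncomputable def imC (α : LTr H L) (C : Set (Finset X)) : AddSubgroup (H.obj (N ⋊[φ] Γ)) :=
  AddSubgroup.closure ({w | ∃ y : H.obj Γ, α.app Γ y = 0 ∧ w = H.map SemidirectProduct.inr y} ∪
    {w | ∃ T ∈ C, ∃ z : H.obj (us.part (T : Set X)), α.app _ z = 0 ∧
      w = H.map (us.partIncl (T : Set X)) z})

variable [DecidableEq X]

include hE in
/-- **Integral kernel formula for an invariant family of finite subsets.** -/
theorem kernel_u (α : LTr H L) (hst : ∀ v : X, Finite (MulAction.stabilizer Γ v))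
    (C : Set (Finset X)) (hC : ∀ S ∈ C, ∀ T ⊆ S, T ∈ C) (hinv : ∀ S ∉ C, ∀ γ : Γ, γ • S ∉ C)
    (a : H.obj N) (ha : a ∈ genC us H C) (b : H.obj Γ)
    (hab : α.app (N ⋊[φ] Γ) (H.map SemidirectProduct.inl a + H.map SemidirectProduct.inr b) = 0)
    (m : ℕ) (hm : ∀ K : Subgroup Γ, Finite K → Nat.card K ∣ m) :
    m • (H.map (SemidirectProduct.inl : N →* N ⋊[φ] Γ) a + H.map SemidirectProduct.inr b) ∈
      imC us α C := by
  classical
  obtain ⟨F, hF, hκ0⟩ := shape_u us C hC a ha
  set c : Finset X → H.obj N := fun U => H.map (us.e (U : Set X)) a with hc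
  have hcF : ∀ S, c S = c (S ∩ F) := by
    intro S
    change H.map (us.e (S : Set X)) a = H.map (us.e ((S ∩ F : Finset X) : Set X)) a
    conv_lhs => rw [← hF, e_e]
  -- the class of `x = α(a)`
  have hxF : fm L (us.e (F : Set X)) (α.app N a) = α.app N a := by
    rw [α.nat, hF]
  have hxy : fm L (SemidirectProduct.inl : N →* N ⋊[φ] Γ) (α.app N a) =
      fm L (SemidirectProduct.inr : Γ →* N ⋊[φ] Γ) (-(α.app Γ b)) := by
    rw [map_neg, α.nat, α.nat]
    rw [map_add] at hab
    exact eq_neg_of_add_eq_zero_left hab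
  have hconj : ∀ (γ : Γ) (u : H.obj N), H.map (SemidirectProduct.inl : N →* N ⋊[φ] Γ)
      (H.map (φ γ⁻¹).toMonoidHom u) = H.map (SemidirectProduct.inl : N →* N ⋊[φ] Γ) u := by
    intro γ u
    have e : (SemidirectProduct.inl : N →* N ⋊[φ] Γ).comp (φ γ⁻¹).toMonoidHom =
        (MulAut.conj (SemidirectProduct.inr γ⁻¹ : N ⋊[φ] Γ)).toMonoidHom.comp
          (SemidirectProduct.inl : N →* N ⋊[φ] Γ) := by
      ext1 n
      change (SemidirectProduct.inl (φ γ⁻¹ n) : N ⋊[φ] Γ) =
        SemidirectProduct.inr γ⁻¹ * SemidirectProduct.inl n * (SemidirectProduct.inr γ⁻¹)⁻¹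
      rw [SemidirectProduct.inl_aut, ← map_inv]
    rw [← H.map_comp, e, H.map_conj]
  let q := QuotientAddGroup.mk' (imC us α C)
  let g : Finset X → H.obj (N ⋊[φ] Γ) ⧸ imC us α C := fun S =>
    (q.comp (H.map (SemidirectProduct.inl : N →* N ⋊[φ] Γ))) (c S) -
      q (H.map (1 : N →* N ⋊[φ] Γ) a)
  have hmoeb : ∀ S : Finset X, S.Nonempty → moeb g S =
      q (H.map (SemidirectProduct.inl : N →* N ⋊[φ] Γ) (moeb c S)) := by
    intro S hS
    rw [show moeb g S = moeb (fun S => (q.comp
      (H.map (SemidirectProduct.inl : N →* N ⋊[φ] Γ))) (c S)) S from moeb_sub_const _ _ S hS,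
      moeb_map]
    rfl
  have hmain := smul_eq_zero_of_moeb hst g F ?_ ?_ m ?_ ?_
  · have e1 : g F = q (H.map (SemidirectProduct.inl : N →* N ⋊[φ] Γ) a -
        H.map (1 : N →* N ⋊[φ] Γ) a) := by
      change q (H.map (SemidirectProduct.inl : N →* N ⋊[φ] Γ) (c F)) - _ = _
      rw [show c F = a from hF, map_sub]
    rw [e1, ← map_nsmul] at hmain
    have h1 : m • (H.map (SemidirectProduct.inl : N →* N ⋊[φ] Γ) a -
        H.map (1 : N →* N ⋊[φ] Γ) a) ∈ imC us α C := (QuotientAddGroup.eq_zero_iff _).mp hmain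
    have h2 : H.map (SemidirectProduct.inr : Γ →* N ⋊[φ] Γ) (b + H.map (1 : N →* Γ) a) ∈
        imC us α C := by
      apply AddSubgroup.subset_closure
      refine Or.inl ⟨_, ?_, rfl⟩
      have h3 := congrArg (fm L (SemidirectProduct.rightHom : N ⋊[φ] Γ →* Γ)) hab
      rw [map_zero, α.nat, map_add, ← H.map_comp, ← H.map_comp,
        SemidirectProduct.rightHom_comp_inl, SemidirectProduct.rightHom_comp_inr, H.map_id] at h3
      rw [add_comm]
      exact h3
    have h4 := (imC us α C).add_mem h1 ((imC us α C).nsmul_mem h2 m)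
    rw [← nsmul_add] at h4
    convert h4 using 2
    rw [map_add, ← H.map_comp]
    have e2 : (SemidirectProduct.inr : Γ →* N ⋊[φ] Γ).comp (1 : N →* Γ) = 1 := by
      ext1 n
      rw [MonoidHom.comp_apply, MonoidHom.one_apply, map_one]
      rfl
    rw [e2]
    abel
  · intro S
    change (q.comp _) (c S) - _ = (q.comp _) (c (S ∩ F)) - _
    rw [hcF S]
  · change q (H.map (SemidirectProduct.inl : N →* N ⋊[φ] Γ) (c ∅)) - _ = 0
    have e0 : us.e ((∅ : Finset X) : Set X) = 1 := by
      ext1 n
      rw [Finset.coe_empty, us.empty]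
      rfl
    have e1 : c ∅ = H.map (1 : N →* N) a := by
      change H.map (us.e ((∅ : Finset X) : Set X)) a = _
      rw [e0]
    rw [e1, ← H.map_comp]
    have e2 : (SemidirectProduct.inl : N →* N ⋊[φ] Γ).comp (1 : N →* N) = 1 := by
      ext1 n
      rw [MonoidHom.comp_apply, MonoidHom.one_apply, map_one]
      rfl
    rw [e2, sub_self]
  · intro S _ hne
    exact hm _ (finite_stabV hst S hne)
  · intro S _ hne Y hY
    by_cases hSC : S ∈ C
    · let z : H.obj N := ∑ y ∈ Y, H.map (φ y⁻¹).toMonoidHom (moeb c (y • S))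
      have hfix : ∀ U : Finset X, H.map (us.e (U : Set X)) (moeb c U) = moeb c U := by
        intro U
        rw [← moeb_map (H.map (us.e (U : Set X))) c U]
        unfold moeb
        apply Finset.sum_congr rfl
        intro T hT
        congr 1
        change H.map (us.e (U : Set X)) (H.map (us.e (T : Set X)) a) = H.map (us.e (T : Set X)) a
        rw [e_e, Finset.inter_eq_right.mpr (Finset.mem_powerset.mp hT)]
      have hz1 : H.map (us.e (S : Set X)) z = z := by
        rw [map_sum]
        apply Finset.sum_congr rfl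
        intro y _
        have e1 : (us.e (S : Set X)).comp (φ y⁻¹).toMonoidHom =
            ((φ y⁻¹).toMonoidHom).comp (us.e ((y • S : Finset X) : Set X)) := by
          ext1 n
          change us.e (S : Set X) (φ y⁻¹ n) = φ y⁻¹ (us.e ((y • S : Finset X) : Set X) n)
          rw [us.equivariant, Finset.coe_smul_finset, inv_smul_smul]
        rw [← H.map_comp, e1, H.map_comp, hfix]
      have hz2 : α.app N z = 0 := by
        rw [map_sum]
        rw [← key_moeb us hE hst F (α.app N a) hxF (-(α.app Γ b)) hxy S hne Y hY]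
        apply Finset.sum_congr rfl
        intro y _
        rw [← α.nat]
        congr 1
        rw [← moeb_map (α.app N) c]
        congr 1
        funext U
        exact (α.nat _ a).symm
      let w' : H.obj (us.part (S : Set X)) := H.map (us.e (S : Set X)).rangeRestrict z
      have hw1 : α.app _ w' = 0 := by
        rw [← α.nat, hz2, map_zero]
      have hw2 : H.map (us.partIncl (S : Set X)) w' =
          H.map (SemidirectProduct.inl : N →* N ⋊[φ] Γ) z := by
        conv_rhs => rw [← hz1]
        rw [← H.map_comp, ← H.map_comp]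
        rfl
      have hmem : H.map (SemidirectProduct.inl : N →* N ⋊[φ] Γ) z ∈ imC us α C := by
        rw [← hw2]
        exact AddSubgroup.subset_closure (Or.inr ⟨S, hSC, w', hw1, rfl⟩)
      have hq : q (H.map (SemidirectProduct.inl : N →* N ⋊[φ] Γ) z) = 0 :=
        (QuotientAddGroup.eq_zero_iff _).mpr hmem
      rw [← hq, map_sum, map_sum]
      apply Finset.sum_congr rfl
      intro y _
      rw [hmoeb _ hne.smul_finset, hconj]
    · apply Finset.sum_eq_zero
      intro y _
      rw [hmoeb _ hne.smul_finset, hκ0 _ (hinv S hSC y), map_zero, map_zero]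

end

section

variable {Γ N X : Type} [Group Γ] [Group N] [MulAction Γ X] {φ : Γ →* MulAut N}
  {L : GrpCat.{0} ⥤ AddCommGrpCat.{w}} (us : USupp φ X) (hE : HasPTI L)

include hE in
/-- **Direct sum.** Let `Γ` be torsion-free, `T_i` nonempty finite subsets of `X`, pairwise in
different orbits of `Γ`, `x_i` a class of `E(R[N])` supported on `T_i` and killed by the
retractions to the proper subsets of `T_i`. If the image of `∑ x_i` in `E(R[N ⋊ Γ])` comes from
`E(R[Γ])`, all `x_i` vanish. -/
theorem dsum_u [DecidableEq X] (htf : ∀ H : Subgroup Γ, Finite H → H = ⊥)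
    (hst : ∀ v : X, Finite (MulAction.stabilizer Γ v))
    {ι : Type} (I : Finset ι) (T : ι → Finset X) (hT : ∀ i ∈ I, (T i).Nonempty)
    (hTT : ∀ i ∈ I, ∀ j ∈ I, ∀ γ : Γ, γ • T i = T j → i = j)
    (x : ι → FO L N) (hx : ∀ i ∈ I, fm L (us.e (T i : Set X)) (x i) = x i)
    (hred : ∀ i ∈ I, ∀ U : Finset X, U ⊂ T i → fm L (us.e (U : Set X)) (x i) = 0)
    (y : FO L Γ)
    (hxy : ∑ i ∈ I, fm L (SemidirectProduct.inl : N →* N ⋊[φ] Γ) (x i) =
      fm L (SemidirectProduct.inr : Γ →* N ⋊[φ] Γ) y) (i : ι) (hi : i ∈ I) : x i = 0 := by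
  classical
  have hES : ∀ j ∈ I, ∀ S : Finset X, fm L (us.e (S : Set X)) (x j) =
      if T j ⊆ S then x j else 0 := by
    intro j hj S
    have h1 : fm L (us.e (S : Set X)) (x j) =
        fm L (us.e ((S ∩ T j : Finset X) : Set X)) (x j) := by
      conv_lhs => rw [← hx j hj]
      have e : (us.e (S : Set X)).comp (us.e (T j : Set X)) =
          us.e ((S ∩ T j : Finset X) : Set X) := by
        ext1 n
        rw [MonoidHom.comp_apply, us.inter, Finset.coe_inter]
      rw [← lcomp, e]
    rw [h1]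
    split_ifs with h
    · rw [Finset.inter_eq_right.mpr h, hx j hj]
    · apply hred j hj
      refine Finset.ssubset_iff_subset_ne.mpr ⟨Finset.inter_subset_right, fun h2 => h ?_⟩
      exact Finset.inter_eq_right.mp h2
  set xs : FO L N := ∑ j ∈ I, x j with hxs
  let F : Finset X := I.biUnion T
  have hF : fm L (us.e (F : Set X)) xs = xs := by
    rw [hxs, map_sum]
    apply Finset.sum_congr rfl
    intro j hj
    rw [hES j hj, if_pos (Finset.subset_biUnion_of_mem T hj)]
  have h1 : fm L (1 : N →* N) xs = 0 := by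
    have e : (1 : N →* N) = us.e ((∅ : Finset X) : Set X) := by
      ext1 n
      rw [Finset.coe_empty, us.empty]; rfl
    rw [e, hxs, map_sum]
    apply Finset.sum_eq_zero
    intro j hj
    rw [hES j hj, if_neg]
    intro h
    exact (hT j hj).ne_empty (Finset.subset_empty.mp h)
  let Y : Finset Γ := carry hst F F
  have hTF : T i ⊆ F := Finset.subset_biUnion_of_mem T hi
  have hY : ∀ U ⊆ T i, ∀ z ∉ Y, Disjoint (z • U) F := by
    intro U hU z hz
    rw [Finset.disjoint_left]
    intro t ht htF
    obtain ⟨u, hu, rfl⟩ := Finset.mem_smul_finset.mp ht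
    exact hz (mem_carry hst (hTF (hU hu)) htF)
  have hxy' : fm L (SemidirectProduct.inl : N →* N ⋊[φ] Γ) xs =
      fm L (SemidirectProduct.inr : Γ →* N ⋊[φ] Γ) y := by
    rw [hxs, map_sum]; exact hxy
  let c : Finset X → FO L N := fun S => fm L (us.e (S : Set X)) xs
  have hkey : ∀ U ⊆ T i, ∑ a ∈ Y, fm L (φ a⁻¹).toMonoidHom (c (a • U)) = 0 := by
    intro U hU
    have h2 := key_u us hE hst F xs hF y hxy' U Y (hY U hU)
    rw [h1] at h2
    simpa only [sub_zero] using h2
  have hm : ∑ a ∈ Y, fm L (φ a⁻¹).toMonoidHom (moeb c (a • T i)) = 0 := by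
    simp_rw [moeb_smulV, map_sum, map_zsmul]
    rw [Finset.sum_comm]
    apply Finset.sum_eq_zero
    intro U hU
    rw [← Finset.smul_sum, hkey U (Finset.mem_powerset.mp hU), smul_zero]
  have hc : ∀ S, moeb c S = ∑ j ∈ I, if S = T j then x j else 0 := by
    intro S
    have e1 : c = fun S => ∑ j ∈ I, (if T j ⊆ S then x j else 0) := by
      funext S
      change fm L (us.e (S : Set X)) (∑ j ∈ I, x j) = _
      rw [map_sum]
      exact Finset.sum_congr rfl fun j hj => hES j hj S
    rw [e1, moeb_sum_fun]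
    apply Finset.sum_congr rfl
    intro j _
    exact moeb_delta (T j) (x j) S
  have hterm : ∀ a : Γ, moeb c (a • T i) = if a = 1 then x i else 0 := by
    intro a
    rw [hc]
    split_ifs with ha
    · subst ha
      rw [one_smul, Finset.sum_eq_single i]
      · rw [if_pos rfl]
      · intro j hj hji
        rw [if_neg]
        intro h
        apply hji
        symm
        apply hTT i hi j hj 1
        rw [one_smul, h]
      · intro h; exact absurd hi h
    · apply Finset.sum_eq_zero
      intro j hj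
      rw [if_neg]
      intro h
      have hij : i = j := hTT i hi j hj a h
      subst hij
      apply ha
      have h2 := finite_stabV hst (T i) (hT i hi)
      have h3 := htf _ h2
      have h4 : a ∈ MulAction.stabilizer Γ (T i) := h
      rw [h3, Subgroup.mem_bot] at h4
      exact h4
  have h1Y : (1 : Γ) ∈ Y := by
    obtain ⟨s, hs⟩ := hT i hi
    exact mem_carry hst (hTF hs) (by rw [one_smul]; exact hTF hs)
  rw [Finset.sum_eq_single_of_mem 1 h1Y] at hm
  · rw [hterm, if_pos rfl, inv_one, map_one] at hm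
    have e : (1 : MulAut N).toMonoidHom = MonoidHom.id N := rfl
    rw [e, fm_id] at hm
    exact hm
  · intro a _ ha
    rw [hterm, if_neg ha, map_zero]

include us hE in
/-- The coinvariants. -/
theorem coinv_u (hC : ContL L) (hst : ∀ v : X, Finite (MulAction.stabilizer Γ v))
    (x : FO L N) (y : FO L Γ)
    (hxy : fm L (SemidirectProduct.inl : N →* N ⋊[φ] Γ) x =
      fm L (SemidirectProduct.inr : Γ →* N ⋊[φ] Γ) y) (m : ℕ)
    (hm : ∀ K : Subgroup Γ, Finite K → Nat.card K ∣ m) :
    m • (x - fm L (1 : N →* N) x) ∈ coL L φ := by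
  classical
  obtain ⟨X₀, hX⟩ := hC N x
  choose S hS using us.finite
  let F : Finset X := X₀.biUnion (fun n => (hS n).1.toFinset)
  have hF : fm L (us.e (F : Set X)) x = x := by
    apply hX
    intro n hn
    have h1 : S n ⊆ (F : Set X) := by
      intro s hs
      rw [Finset.mem_coe, Finset.mem_biUnion]
      exact ⟨n, hn, (hS n).1.mem_toFinset.mpr hs⟩
    conv_lhs => rw [← (hS n).2]
    rw [us.inter, Set.inter_eq_self_of_subset_right h1, (hS n).2]
  set c : Finset X → FO L N := fun U => fm L (us.e (U : Set X)) x with hc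
  have hcF : ∀ S, c S = c (S ∩ F) := by
    intro S
    change fm L (us.e (S : Set X)) x = fm L (us.e ((S ∩ F : Finset X) : Set X)) x
    have e : (us.e (S : Set X)).comp (us.e (F : Set X)) = us.e ((S ∩ F : Finset X) : Set X) := by
      ext1 n
      rw [MonoidHom.comp_apply, us.inter, Finset.coe_inter]
    conv_lhs => rw [← hF]
    rw [← lcomp, e]
  let q := QuotientAddGroup.mk' (coL L φ)
  let g : Finset X → FO L N ⧸ coL L φ := fun S => q (c S) - q (fm L (1 : N →* N) x)
  have hmoeb : ∀ S : Finset X, S.Nonempty → moeb g S = q (moeb c S) := by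
    intro S hS
    rw [show moeb g S = moeb (fun S => q (c S)) S from moeb_sub_const _ _ S hS, moeb_map]
  have hact : ∀ (γ : Γ) (u : FO L N), q (fm L (φ γ).toMonoidHom u) = q u := by
    intro γ u
    rw [← sub_eq_zero, ← map_sub]
    exact (QuotientAddGroup.eq_zero_iff _).mpr (coL_mem γ u)
  have hmain := smul_eq_zero_of_moeb hst g F ?_ ?_ m ?_ ?_
  · have e1 : g F = q (x - fm L (1 : N →* N) x) := by
      change q (c F) - _ = _
      rw [show c F = x from hF, map_sub]
    rw [e1, ← map_nsmul] at hmain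
    exact (QuotientAddGroup.eq_zero_iff _).mp hmain
  · intro S
    change q (c S) - _ = q (c (S ∩ F)) - _
    rw [hcF S]
  · change q (c ∅) - _ = 0
    have e0 : us.e ((∅ : Finset X) : Set X) = 1 := by
      ext1 n
      rw [Finset.coe_empty, us.empty]
      rfl
    have e1 : c ∅ = fm L (1 : N →* N) x := by
      change fm L (us.e ((∅ : Finset X) : Set X)) x = _
      rw [e0]
    rw [e1, sub_self]
  · intro S _ hne
    exact hm _ (finite_stabV hst S hne)
  · intro S _ hne Y hY
    have h1 := congrArg q (key_moeb us hE hst F x hF y hxy S hne Y hY)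
    rw [map_zero, map_sum] at h1
    rw [← h1]
    apply Finset.sum_congr rfl
    intro a _
    rw [hmoeb _ hne.smul_finset, hact]

include us hE in
/-- The coinvariants, in the category of groups. -/
theorem coinvariantsEmbed_of (hC : ContL L) (hst : ∀ v : X, Finite (MulAction.stabilizer Γ v))
    (m : ℕ) (hm : ∀ K : Subgroup Γ, Finite K → Nat.card K ∣ m) :
    CoinvariantsEmbed L φ m := by
  intro x y hxy
  exact coinv_u us hE hC hst x y hxy m hm

include hE in
/-- The direct sum, in the category of groups. -/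
theorem orbitsIndependent_of (hst : ∀ v : X, Finite (MulAction.stabilizer Γ v))
    (htf : ∀ H : Subgroup Γ, Finite H → H = ⊥) : OrbitsIndependent L us := by
  classical
  intro k T hne hor x hx hred y hxy i
  refine dsum_u us hE htf hst Finset.univ T (fun i _ => hne i) ?_ x (fun i _ => hx i)
    (fun i _ => hred i) y ?_ i (Finset.mem_univ i)
  · intro i _ j _ γ h
    apply hor i j γ
    intro v
    rw [← h, ← Finset.inv_smul_mem_iff]
  · refine Eq.trans ?_ hxy
    exact (map_sum (fm L (SemidirectProduct.inl : N →* N ⋊[φ] Γ)) x Finset.univ).symm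

theorem imC_le {H : GrpCat.{0} ⥤ AddCommGrpCat.{w}} (hH : InnerTrivial H) (α : H ⟶ L)
    (C : Set (Finset X)) : imC us (toLT hH α) C ≤ kerOver α us C := by
  refine (AddSubgroup.closure_le _).mpr ?_
  rintro w (⟨y, hy, rfl⟩ | ⟨T, hT, z, hz, rfl⟩)
  · have h1 : imKer α (inΓ φ) ≤ kerOver α us C := le_sup_left
    exact h1 ⟨y, hy, rfl⟩
  · have h1 : imKer α (inPart us T) ≤ kerOver α us C :=
      le_sup_of_le_right (le_iSup₂_of_le T hT le_rfl)
    exact h1 ⟨z, hz, rfl⟩

include hE in
/-- The kernel formula, in the category of groups. -/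
theorem kernelFormulaOver_of (hst : ∀ v : X, Finite (MulAction.stabilizer Γ v)) (m : ℕ)
    (hm : ∀ K : Subgroup Γ, Finite K → Nat.card K ∣ m) : KernelFormulaOver L us m := by
  classical
  rintro C ⟨hC, hinv⟩ H hH α x hx hα
  let H' : GFun := toG H hH
  let α' : LTr H' L := toLT hH α
  have hshape : ∃ (a : H'.obj N) (b : H'.obj Γ), a ∈ genC us H' C ∧
      x = H'.map (SemidirectProduct.inl : N →* N ⋊[φ] Γ) a +
        H'.map (SemidirectProduct.inr : Γ →* N ⋊[φ] Γ) b := by
    clear hα
    replace hx := genOver_le us H C hx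
    induction hx using AddSubgroup.closure_induction with
    | mem w hw =>
      rcases hw with ⟨y, rfl⟩ | ⟨S, hS, z, rfl⟩
      · exact ⟨0, y, AddSubgroup.zero_mem _, by rw [map_zero, zero_add]; rfl⟩
      · refine ⟨H'.map (us.e (S : Set X)).range.subtype z, 0, ?_, ?_⟩
        · exact AddSubgroup.subset_closure ⟨S, hS, z, rfl⟩
        · rw [map_zero, add_zero]
          exact H'.map_comp _ _ z
    | zero =>
      refine ⟨0, 0, AddSubgroup.zero_mem _, ?_⟩
      rw [map_zero, map_zero, zero_add]
      rfl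
    | add u v _ _ hu hv =>
      obtain ⟨a₁, b₁, h₁, rfl⟩ := hu
      obtain ⟨a₂, b₂, h₂, rfl⟩ := hv
      refine ⟨a₁ + a₂, b₁ + b₂, AddSubgroup.add_mem _ h₁ h₂, ?_⟩
      rw [map_add, map_add]
      exact add_add_add_comm _ _ _ _
    | neg u _ hu =>
      obtain ⟨a₁, b₁, h₁, rfl⟩ := hu
      refine ⟨-a₁, -b₁, AddSubgroup.neg_mem _ h₁, ?_⟩
      rw [map_neg, map_neg]
      exact neg_add _ _
  obtain ⟨a, b, ha, hxab⟩ := hshape
  have hinv' : ∀ S ∉ C, ∀ γ : Γ, γ • S ∉ C := by
    intro S hS γ h2
    apply hS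
    refine hinv _ h2 γ⁻¹ S (fun v => ?_)
    rw [inv_inv]
    exact (Finset.smul_mem_smul_finset_iff γ).symm
  have hα' : α'.app (N ⋊[φ] Γ) (H'.map SemidirectProduct.inl a + H'.map SemidirectProduct.inr b) =
      0 := by
    rw [← hxab]
    exact hα
  have hk := kernel_u us hE α' hst C hC hinv' a ha b hα' m hm
  rw [← hxab] at hk
  exact imC_le us hH α C hk

include hE in
theorem keyProp_of (hst : ∀ v : X, Finite (MulAction.stabilizer Γ v)) : KeyProp L us := by
  classical
  intro F x hx y hxy S hS Y hY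
  exact key_moeb us hE hst F x hx y hxy S hS Y hY

end

end Pool.Agent.Q143.KZ
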