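import Pool.Agent.Y574.CS.Corner
import Pool.Agent.Y483.CS.Iso
import Pool.Agent.Y477.IW.UFin
import Pool.Agent.Y483.PI.Main

/-!
The functor `K_0` of rings with involution has the formal properties of `Pool.Agent.Y477.IW.IFunctor`:
injectivity of the corner embeddings, deduced from the Banach algebra version with discrete norms.
-/

namespace Pool.Agent.Q143.KF

open Pool.Agent.Y483 Pool.Agent.Y483.CS Pool.Agent.Y477.IW

universe u v

section Corner

/-- Injectivity of corner embeddings, in all universes. -/
theorem t_corner {C : Type u} {B : Type v} {A : Type} [NormedRing C] [CompleteSpace C] [NormedRing B]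
    [CompleteSpace B] (m : MU C B A) (a : A) : Function.Injective (K0.map (m.corner a)) := by
  rw [injective_iff_map_eq_zero]
  intro z hz
  obtain ⟨n, k, p, q, hp, hq, h⟩ := Pool.Agent.Y574.CS.exists_cls z
  have h1 := congrArg (K0.map (m.corner a)) h
  rw [map_add, hz, zero_add, K0.map_cls, K0.map_cls] at h1
  have h2 := Pool.Agent.Y574.CS.key m a hp hq h1.symm
  rw [h2] at h
  exact add_eq_right.1 h

open Classical in
/-- The discrete norm on a ring. -/
@[reducible] noncomputable def discNorm (S : Type u) [r : Ring S] : NormedRing S :=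
  { r with
    norm := fun x => if x = 0 then 0 else 1
    dist := fun x y => if x - y = 0 then 0 else 1
    dist_self := fun x => by simp
    dist_comm := fun x y => by
      by_cases h : x - y = 0
      · have h' : y - x = 0 := by rw [← neg_sub, h, neg_zero]
        simp [h, h']
      · have h' : y - x ≠ 0 := fun e => h (by rw [← neg_sub, e, neg_zero])
        simp [h, h']
    dist_triangle := fun x y z => by
      by_cases h1 : x - y = 0
      · have : x = y := sub_eq_zero.1 h1
        subst this
        simp
      · by_cases h2 : x - z = 0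
        · simp only [h2, h1, if_true, if_false]
          positivity
        · simp only [h2, h1, if_false]
          have : (0 : ℝ) ≤ if y - z = 0 then 0 else 1 := by positivity
          linarith
    eq_of_dist_eq_zero := fun {x y} h => by
      by_contra hne
      have h1 : x - y ≠ 0 := fun e => hne (sub_eq_zero.1 e)
      change (if x - y = 0 then (0 : ℝ) else 1) = 0 at h
      rw [if_neg h1] at h
      exact one_ne_zero h
    dist_eq := fun x y => by
      by_cases h : x - y = 0
      · have h' : -x + y = 0 := by rw [neg_add_eq_sub, ← neg_sub, h, neg_zero]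
        simp [h, h']
      · have h' : -x + y ≠ 0 := fun e => h (by
          rw [neg_add_eq_sub] at e
          rw [← neg_sub, e, neg_zero])
        simp [h, h']
    norm_mul_le := fun x y => by
      by_cases hx : x = 0
      · simp [hx]
      · by_cases hy : y = 0
        · simp [hy]
        · simp only [hx, hy, if_false]
          split_ifs <;> norm_num }

theorem discNorm_complete (S : Type u) [Ring S] :
    @CompleteSpace S (discNorm S).toMetricSpace.toUniformSpace := by
  classical
  let := discNorm S
  refine Metric.complete_of_cauchySeq_tendsto fun x hx => ?_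
  rw [Metric.cauchySeq_iff'] at hx
  obtain ⟨N, hN⟩ := hx 1 one_pos
  refine ⟨x N, tendsto_atTop_of_eventually_const (i₀ := N) fun n hn => ?_⟩
  have h := hN n hn
  by_contra hne
  have h1 : x n - x N ≠ 0 := fun e => hne (sub_eq_zero.1 e)
  change (if x n - x N = 0 then (0 : ℝ) else 1) < 1 at h
  rw [if_neg h1] at h
  exact lt_irrefl _ h

variable (S A : Type) [Ring S] [StarRing S]

variable {S A}

open Classical in
/-- The matrix unit with one entry `s`. -/
noncomputable def uop (a b : A) (s : S) : Op S A :=
  monoOp (Equiv.swap a b) (fun _ => (1 : S)) * diagOp (Pi.single b s)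

theorem uop_same (a b : A) (s t : S) : (uop a b s).fn (Finsupp.single b t) =
    Finsupp.single a (s * t) := by
  classical
  unfold uop
  rw [Op.fn_mul, diagOp_fn, monoOp_fn, Pi.single_eq_same, one_mul, Equiv.swap_apply_right]

theorem uop_ne (a b c : A) (s t : S) (h : c ≠ b) :
    (uop a b s).fn (Finsupp.single c t) = 0 := by
  classical
  unfold uop
  rw [Op.fn_mul, diagOp_fn, Pi.single_eq_of_ne h, zero_mul, Finsupp.single_zero, map_zero]

theorem uop_add (a b : A) (s t : S) : uop a b (s + t) = uop a b s + uop a b t := by
  classical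
  unfold uop
  rw [Pi.single_add, diagOp_add, mul_add]

theorem uop_zero (a b : A) : uop a b (0 : S) = 0 := by
  classical
  unfold uop
  rw [Pi.single_zero, diagOp_zero, mul_zero]

theorem uop_finRank (a b : A) (s : S) : FinRank (uop a b s) := by
  classical
  unfold uop
  apply FinRank.mul_left
  apply diagOp_finRank _ {b}
  intro c hc
  rw [Finset.mem_singleton] at hc
  exact Pi.single_eq_of_ne (M := fun _ => S) hc s

theorem uop_mul (a b c : A) (s t : S) : uop a b s * uop b c t = uop a c (s * t) := by
  apply Op.ext'
  intro x
  rw [Op.fn_mul]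
  by_cases h : x = c
  · subst h
    rw [uop_same, uop_same, uop_same, mul_assoc]
  · rw [uop_ne _ _ _ _ _ h, uop_ne _ _ _ _ _ h, map_zero]

theorem uop_mul_ne (a b b' c : A) (s t : S) (h : b ≠ b') : uop a b s * uop b' c t = 0 := by
  apply Op.ext'
  intro x
  rw [Op.fn_mul]
  by_cases hx : x = c
  · subst hx
    rw [uop_same, uop_ne _ _ _ _ _ (Ne.symm h), Op.fn_zero]
  · rw [uop_ne _ _ _ _ _ hx, map_zero, Op.fn_zero]

theorem uop_eq_zero {a b : A} {s : S} (h : uop a b s = 0) : s = 0 := by
  have h1 := uop_same a b s 1
  rw [h, Op.fn_zero, mul_one] at h1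
  exact (Finsupp.single_eq_zero.1 h1.symm)

/-- The system of matrix units, for the discrete norms. -/
noncomputable def mu (S A : Type) [Ring S] [StarRing S] :
    @MU S (Op S A) A (discNorm S) (discNorm (Op S A)) :=
  letI := discNorm S
  letI := discNorm (Op S A)
  { E := fun a b =>
      { toFun := uop a b
        map_zero' := uop_zero a b
        map_add' := uop_add a b }
    norm_E := fun a b s => by
      classical
      change (if uop a b s = 0 then (0 : ℝ) else 1) = if s = 0 then 0 else 1
      by_cases h : s = 0
      · rw [if_pos h, h, uop_zero, if_pos rfl]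
      · rw [if_neg h, if_neg (fun e => h (uop_eq_zero e))]
    mul_same := fun a b c s t => uop_mul a b c s t
    mul_ne := fun a b b' c s t h => uop_mul_ne a b b' c s t h
    norm_P := fun F => by
      classical
      change (if _ = 0 then (0 : ℝ) else 1) ≤ 1
      split_ifs <;> norm_num }

open Classical in
theorem uop_entry (a b x : A) (s : S) (c : A) :
    (uop a b s).fn (Finsupp.single x 1) c = if x = b ∧ c = a then s else 0 := by
  by_cases h : x = b
  · subst h
    rw [uop_same, mul_one]
    by_cases hc : c = a
    · subst hc
      rw [Finsupp.single_eq_same, if_pos ⟨rfl, rfl⟩]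
    · rw [Finsupp.single_eq_of_ne hc, if_neg (fun e => hc e.2)]
  · rw [uop_ne _ _ _ _ _ h, if_neg (fun e => h e.1)]
    rfl

theorem finRank_eq_sum {x : Op S A} {F : Finset A}
    (h : ∀ a ∉ F, x.fn (Finsupp.single a 1) = 0 ∧ x.ad (Finsupp.single a 1) = 0) :
    x = ∑ a ∈ F, ∑ b ∈ F, uop a b (entry x a b) := by
  classical
  apply Op.ext'
  intro c
  ext d
  change entry x d c = entry (∑ a ∈ F, ∑ b ∈ F, uop a b (entry x a b)) d c
  rw [entry_sum]
  simp_rw [entry_sum]
  have e : ∀ a b, entry (uop a b (entry x a b)) d c = if c = b ∧ d = a then entry x a b else 0 :=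
    fun a b => uop_entry a b c (entry x a b) d
  simp_rw [e]
  by_cases hd : d ∈ F
  · by_cases hc : c ∈ F
    · rw [Finset.sum_eq_single_of_mem d hd, Finset.sum_eq_single_of_mem c hc]
      · rw [if_pos ⟨rfl, rfl⟩]
      · intro b _ hb
        rw [if_neg (fun h => hb h.1.symm)]
      · intro a _ ha
        apply Finset.sum_eq_zero
        intro b _
        rw [if_neg (fun h => ha h.2.symm)]
    · rw [entry_of_finRank h (Or.inr hc)]
      symm
      apply Finset.sum_eq_zero
      intro a _
      apply Finset.sum_eq_zero
      intro b hb
      rw [if_neg]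
      rintro ⟨rfl, -⟩
      exact hc hb
  · rw [entry_of_finRank h (Or.inl hd)]
    symm
    apply Finset.sum_eq_zero
    intro a ha
    apply Finset.sum_eq_zero
    intro b _
    rw [if_neg]
    rintro ⟨-, rfl⟩
    exact hd ha

theorem finRank_mem {x : Op S A} (h : FinRank x) :
    x ∈ @MU.cpt S (Op S A) A (discNorm S) (discNorm (Op S A)) (mu S A) := by
  let := discNorm S
  let := discNorm (Op S A)
  obtain ⟨F, hF⟩ := h
  rw [finRank_eq_sum hF]
  apply AddSubgroup.sum_mem
  intro a _
  apply AddSubgroup.sum_mem
  intro b _
  exact (mu S A).E_mem a b _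

theorem mem_mult (x : Op S A) :
    x ∈ @MU.mult S (Op S A) A (discNorm S) (discNorm (Op S A)) (mu S A) := by
  let := discNorm S
  let := discNorm (Op S A)
  apply (mu S A).mem_mult_of
  intro a b s
  exact ⟨finRank_mem (FinRank.mul_left x (uop_finRank a b s)),
    finRank_mem (FinRank.mul_right (uop_finRank a b s) x)⟩

/-- The inclusion of `D_A(S)` in the double of the ring of multipliers. -/
noncomputable def jd (S A : Type) [Ring S] [StarRing S] :
    DD S A →+* @MU.dbl S (Op S A) A (discNorm S) (discNorm (Op S A)) (mu S A) where
  toFun x := ⟨(x.fst, x.snd), mem_mult _, mem_mult _, finRank_mem x.2⟩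
  map_one' := rfl
  map_mul' _ _ := rfl
  map_zero' := rfl
  map_add' _ _ := rfl

theorem corner_inj (S : Type) [Ring S] [StarRing S] (A : Type) (a : A) :
    Function.Injective (K0.map (corner S A a).toNonUnitalRingHom) := by
  classical
  let r1 := discNorm S
  let r2 := discNorm (Op S A)
  have c1 : CompleteSpace S := discNorm_complete S
  have c2 : CompleteSpace (Op S A) := discNorm_complete (Op S A)
  have h := t_corner (mu S A) a
  have e : (mu S A).corner a = (nu (jd S A)).comp (corner S A a).toNonUnitalRingHom := by
    apply NonUnitalRingHom.ext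
    intro s
    apply Subtype.ext
    refine Prod.ext ?_ rfl
    change uop a a s = diagOp (Pi.single a s)
    apply Op.ext'
    intro x
    by_cases hx : x = a
    · subst hx
      rw [uop_same, diagOp_fn, Pi.single_eq_same]
    · rw [uop_ne _ _ _ _ _ hx, diagOp_fn, Pi.single_eq_of_ne hx, zero_mul, Finsupp.single_zero]
  rw [e] at h
  intro x y hxy
  apply h
  rw [K0.map_comp, K0.map_comp]
  exact congrArg _ hxy

end Corner

end Pool.Agent.Q143.KF
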