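import Pool.Agent.Q143.KZ.K0F
import Pool.Agent.Q143.KZ.Abs

/-!
The functors `G ↦ K_0(R[G])` and `G ↦ K_1(R[G])`, `R` an arbitrary ring: integral transfers along
pairs of cocycles, inner automorphisms, continuity.
-/

namespace Pool.Agent.Q143.KF

open Pool.Agent.Y483 Pool.Agent.Y483.CS Pool.Agent.Y477.IW Pool.Agent.Y483.PI CategoryTheory
  Pool.Agent.Q143.KZ

universe w

theorem eqv_conj {R : Type*} [Ring R] {n : ℕ} (u v : R) (h : v * u = 1)
    (e : Matrix (Fin n) (Fin n) R) (he : e * e = e) :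
    Eqv (Matrix.of fun i j => u * e i j * v) e := by
  have h2 : ∀ i j, ∑ k, e i k * e k j = e i j := fun i j => by
    have h3 : (e * e) i j = e i j := by rw [he]
    rwa [Matrix.mul_apply] at h3
  refine ⟨Matrix.of fun i j => u * e i j, Matrix.of fun i j => e i j * v, ?_, ?_⟩
  · ext i j
    rw [Matrix.mul_apply, Matrix.of_apply, ← h2, Finset.mul_sum, Finset.sum_mul]
    apply Finset.sum_congr rfl
    intro k _
    rw [Matrix.of_apply, Matrix.of_apply]
    simp only [mul_assoc]
  · ext i j
    rw [Matrix.mul_apply, ← h2]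
    apply Finset.sum_congr rfl
    intro k _
    rw [Matrix.of_apply, Matrix.of_apply, mul_assoc, ← mul_assoc v, h, one_mul]

theorem k0_conj {R S : Type} [Ring R] [Ring S] (f g : R →ₙ+* S) (u v : S) (h : v * u = 1)
    (hg : ∀ x, g x = u * f x * v) (x : K0 R) : K0.map g x = K0.map f x := by
  have key : K0.map g = K0.map f := by
    apply K0.hom_ext
    intro n e he
    rw [K0.map_cls, K0.map_cls]
    apply K0.cls_eqv
    have h2 := eqv_conj u v h (e.map f) (map_idem f he)
    have h3 : (Matrix.of fun i j => u * (e.map f) i j * v) = e.map g := by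
      ext i j
      exact (hg (e i j)).symm
    rwa [h3] at h2
  rw [key]

/-- `K_0` as an integral functor. -/
noncomputable def k0Fun : IFunctor.{0} where
  obj R _ _ := K0 R
  grp R _ _ := inferInstance
  map f := K0.map f.toNonUnitalRingHom
  map_id R _ _ z := K0.map_id z
  map_comp g f z := K0.map_comp g.toNonUnitalRingHom f.toNonUnitalRingHom z
  map_add {R S} _ _ _ _ f g h h1 h2 z := by
    have h3 := K0.map_sum (A := Unit) {()} h.toNonUnitalRingHom f.toNonUnitalRingHom
      (fun _ => g.toNonUnitalRingHom) (fun x => by rw [Finset.sum_singleton]; exact h1 x)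
      (fun _ _ x y => h2 x y)
      (fun _ _ x y => by
        change g x * f y = 0
        have h4 := congrArg star (h2 (star y) (star x))
        rw [star_mul, star_zero, map_star, map_star, star_star, star_star] at h4
        exact h4)
      (fun a _ b _ hab => absurd (Subsingleton.elim a b) hab) z
    rw [Finset.sum_singleton] at h3
    exact h3
  map_conj f g u h1 _ h3 z := k0_conj f.toNonUnitalRingHom g.toNonUnitalRingHom u (star u) h1 h3 z
  corner_inj S _ _ A a := corner_inj S A a

/-- Transfers along pairs for the functors `G ↦ E(R[G])`. -/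
theorem hasPTI_eg (E : IFunctor.{w}) (R : Type) [Ring R] [StarRing R] : HasPTI (eg E R) := by
  classical
  intro G A K _ _ κ
  by_cases hA : Nonempty A
  · obtain ⟨a₀⟩ := hA
    refine ⟨E.obj (DD (MonoidAlgebra R K) A), inferInstance,
      E.map (pHom R κ) - E.map (pHom R (pD κ)),
      E.map (corner (MonoidAlgebra R K) A a₀), E.corner_inj _ A a₀, ?_⟩
    intro G₀ _ j Y lc ld hY1 hY2 x
    exact pre E R κ a₀ j Y lc ld hY1 hY2 x
  · refine ⟨(eg E R).obj (GrpCat.of K), inferInstance, 0, AddMonoidHom.id _,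
      Function.injective_id, ?_⟩
    intro G₀ _ j Y lc ld hY1 hY2 x
    have : Y = ∅ := by
      rw [Finset.eq_empty_iff_forall_notMem]
      intro a _
      exact hA ⟨a⟩
    rw [this, Finset.sum_empty, map_zero]
    rfl

/-- A retract of a functor with transfers along pairs has transfers along pairs. -/
theorem HasPTI.retract {L L' : GrpCat.{0} ⥤ AddCommGrpCat.{w}} (j : L ⟶ L') (p : L' ⟶ L)
    (hjp : ∀ (G : GrpCat.{0}) (x : L.obj G), (p.app G).hom ((j.app G).hom x) = x)
    (h : HasPTI L') : HasPTI L := by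
  intro G A K _ _ κ
  obtain ⟨M, iM, Φ, ι, hι, hΦ⟩ := h G A K κ
  have hj : Function.Injective (j.app (GrpCat.of K)).hom :=
    Function.LeftInverse.injective (hjp (GrpCat.of K))
  refine ⟨M, iM, Φ.comp (j.app (GrpCat.of G)).hom, ι.comp (j.app (GrpCat.of K)).hom,
    hι.comp hj, ?_⟩
  intro G₀ _ j₀ Y lc ld hY1 hY2 x
  have h1 := hΦ G₀ j₀ Y lc ld hY1 hY2 ((j.app (GrpCat.of G₀)).hom x)
  have hn : ∀ {P Q : Type} [Group P] [Group Q] (f : P →* Q) (y : FO L P),
      (j.app (GrpCat.of Q)).hom (gm L f y) = gm L' f ((j.app (GrpCat.of P)).hom y) :=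
    fun f y => fm_app j f y
  change Φ ((j.app (GrpCat.of G)).hom (gm L j₀ x)) =
    ι ((j.app (GrpCat.of K)).hom (∑ a ∈ Y, (gm L (lc a) x - gm L (ld a) x)))
  rw [hn, h1]
  refine congrArg ι ?_
  refine Eq.trans ?_ (map_sum (j.app (GrpCat.of K)).hom _ _).symm
  apply Finset.sum_congr rfl
  intro a _
  rw [map_sub, hn, hn]

theorem hasPTI_kgr (R : Type) [Ring R] : HasPTI (kgr R) :=
  HasPTI.retract (dbl R) (undbl R) undbl_dbl (hasPTI_eg kFun (Sw R))

/-! ### The functor `K_0(R[G])` -/

section K0gr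

variable (R : Type) [Ring R]

/-- The map `K_0(R[G]) → K_0(R[K])` induced by a homomorphism `f : G → K`. -/
noncomputable def k0f {G K : Type} [Group G] [Group K] (f : G →* K) :
    K0 (MonoidAlgebra R G) →+ K0 (MonoidAlgebra R K) :=
  K0.map (grm (NonUnitalRingHom.id R) f)

theorem k0f_id {G : Type} [Group G] (x : K0 (MonoidAlgebra R G)) :
    k0f R (MonoidHom.id G) x = x := by
  unfold k0f
  rw [grm_id]
  exact K0.map_id x

theorem k0f_comp {G K M : Type} [Group G] [Group K] [Group M] (g : K →* M) (f : G →* K)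
    (x : K0 (MonoidAlgebra R G)) : k0f R (g.comp f) x = k0f R g (k0f R f x) := by
  unfold k0f
  rw [← K0.map_comp, grm_comp]
  rfl

/-- The functor `G ↦ K_0(R[G])`. -/
noncomputable def k0gr : GrpCat.{0} ⥤ AddCommGrpCat.{0} where
  obj G := AddCommGrpCat.of (K0 (MonoidAlgebra R G))
  map f := AddCommGrpCat.ofHom (k0f R f.hom)
  map_id G := by
    apply AddCommGrpCat.hom_ext
    ext x
    exact k0f_id R x
  map_comp f g := by
    apply AddCommGrpCat.hom_ext
    ext x
    exact k0f_comp R g.hom f.hom x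

theorem dbl0_nat {G K : Type} [Group G] [Group K] (f : G →* K) (x : K0 (MonoidAlgebra R G)) :
    K0.map (grm (swI R) (MonoidHom.id K)) (k0f R f x) =
      K0.map (grMap (Sw R) f).toNonUnitalRingHom (K0.map (grm (swI R) (MonoidHom.id G)) x) := by
  unfold k0f
  rw [grm_star, ← K0.map_comp, ← K0.map_comp, grm_comp, grm_comp]
  rfl

theorem undbl0_nat {G K : Type} [Group G] [Group K] (f : G →* K)
    (x : K0 (MonoidAlgebra (Sw R) G)) :
    K0.map (grm (swP R) (MonoidHom.id K)) (K0.map (grMap (Sw R) f).toNonUnitalRingHom x) =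
      k0f R f (K0.map (grm (swP R) (MonoidHom.id G)) x) := by
  unfold k0f
  rw [grm_star, ← K0.map_comp, ← K0.map_comp, grm_comp, grm_comp]
  rfl

theorem undbl0_dbl0' {G : Type} [Group G] (x : K0 (MonoidAlgebra R G)) :
    K0.map (grm (swP R) (MonoidHom.id G)) (K0.map (grm (swI R) (MonoidHom.id G)) x) = x := by
  rw [← K0.map_comp, grm_comp, swP_swI]
  exact k0f_id R x

/-- The natural transformation `K_0(R[G]) → K_0((R × Rᵒᵖ)[G])`. -/
noncomputable def dbl0 : k0gr R ⟶ eg k0Fun (Sw R) where
  app G := AddCommGrpCat.ofHom (K0.map (grm (swI R) (MonoidHom.id G)))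
  naturality G K f := by
    apply AddCommGrpCat.hom_ext
    ext x
    exact dbl0_nat R f.hom x

/-- The projection of `K_0((R × Rᵒᵖ)[G])` to `K_0(R[G])`. -/
noncomputable def undbl0 : eg k0Fun (Sw R) ⟶ k0gr R where
  app G := AddCommGrpCat.ofHom (K0.map (grm (swP R) (MonoidHom.id G)))
  naturality G K f := by
    apply AddCommGrpCat.hom_ext
    ext x
    exact undbl0_nat R f.hom x

theorem undbl0_dbl0 (G : GrpCat.{0}) (x : (k0gr R).obj G) :
    ((undbl0 R).app G).hom (((dbl0 R).app G).hom x) = x := undbl0_dbl0' R x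

theorem hasPTI_k0gr : HasPTI (k0gr R) :=
  HasPTI.retract (dbl0 R) (undbl0 R) (undbl0_dbl0 R) (hasPTI_eg k0Fun (Sw R))

theorem k0f_conj {G : Type} [Group G] (g : G) (x : K0 (MonoidAlgebra R G)) :
    k0f R (MulAut.conj g).toMonoidHom x = x := by
  unfold k0f
  have h := k0_conj (NonUnitalRingHom.id (MonoidAlgebra R G))
    (grm (NonUnitalRingHom.id R) (MulAut.conj g).toMonoidHom)
    (MonoidAlgebra.single g 1) (MonoidAlgebra.single g⁻¹ 1) (by
      rw [MonoidAlgebra.single_mul_single, inv_mul_cancel, one_mul, MonoidAlgebra.one_def]) ?_ x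
  · rw [h]
    exact K0.map_id x
  · intro y
    change grm (NonUnitalRingHom.id R) (MulAut.conj g).toMonoidHom y =
      MonoidAlgebra.single g 1 * y * MonoidAlgebra.single g⁻¹ 1
    induction y using MonoidAlgebra.induction_linear with
    | zero => simp
    | add a b ha hb => rw [map_add, mul_add, add_mul, ha, hb]
    | single k r =>
      rw [grm_single]
      change MonoidAlgebra.single (g * k * g⁻¹) r =
        MonoidAlgebra.single g 1 * MonoidAlgebra.single k r * MonoidAlgebra.single g⁻¹ 1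
      rw [MonoidAlgebra.single_mul_single, MonoidAlgebra.single_mul_single, one_mul, mul_one]

theorem innerTrivial_k0gr : InnerTrivial (k0gr R) := by
  intro G g
  apply AddCommGrpCat.hom_ext
  ext x
  exact k0f_conj R g x

theorem grm_fix {G : Type} [Group G] (x : MonoidAlgebra R G) : ∃ X : Finset G, ∀ f : G →* G,
    (∀ g ∈ X, f g = g) → grm (NonUnitalRingHom.id R) f x = x := by
  classical
  induction x using MonoidAlgebra.induction_linear with
  | zero => exact ⟨∅, fun f _ => map_zero _⟩
  | add x y hx hy =>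
    obtain ⟨X, hX⟩ := hx
    obtain ⟨Y, hY⟩ := hy
    refine ⟨X ∪ Y, fun f hf => ?_⟩
    rw [map_add, hX f (fun g hg => hf g (Finset.mem_union_left _ hg)),
      hY f (fun g hg => hf g (Finset.mem_union_right _ hg))]
  | single g c =>
    refine ⟨{g}, fun f hf => ?_⟩
    rw [grm_single, hf g (Finset.mem_singleton_self g)]
    rfl

theorem mat_fix {G : Type} [Group G] {ι : Type} [Fintype ι] (p : Matrix ι ι (MonoidAlgebra R G)) :
    ∃ X : Finset G, ∀ f : G →* G, (∀ g ∈ X, f g = g) →
      p.map (grm (NonUnitalRingHom.id R) f) = p := by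
  classical
  choose X hX using fun i j => grm_fix R (p i j)
  refine ⟨Finset.univ.biUnion fun i => Finset.univ.biUnion fun j => X i j, fun f hf => ?_⟩
  ext1 i j
  refine hX i j f fun g hg => hf g ?_
  rw [Finset.mem_biUnion]
  refine ⟨i, Finset.mem_univ _, ?_⟩
  rw [Finset.mem_biUnion]
  exact ⟨j, Finset.mem_univ _, hg⟩

theorem k0f_fix {G : Type} [Group G] (x : K0 (MonoidAlgebra R G)) : ∃ X : Finset G,
    ∀ f : G →* G, (∀ g ∈ X, f g = g) → k0f R f x = x := by
  classical
  obtain ⟨n, k, p, q, hp, hq, h⟩ := Pool.Agent.Y574.CS.exists_cls (R := MonoidAlgebra R G) x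
  obtain ⟨X, hX⟩ := mat_fix R p
  obtain ⟨Y, hY⟩ := mat_fix R q
  refine ⟨X ∪ Y, fun f hf => ?_⟩
  have h1 := hX f fun g hg => hf g (Finset.mem_union_left _ hg)
  have h2 := hY f fun g hg => hf g (Finset.mem_union_right _ hg)
  have h3 : k0f R f (K0.cls p hp) = K0.cls p hp := by
    unfold k0f
    rw [K0.map_cls]
    exact K0.cls_congr h1
  have h4 : k0f R f (K0.cls q hq) = K0.cls q hq := by
    unfold k0f
    rw [K0.map_cls]
    exact K0.cls_congr h2
  have h5 := congrArg (k0f R f) h
  rw [map_add, h3, h4, ← h] at h5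
  exact add_right_cancel h5

theorem contL_k0gr : ContL (k0gr R) := fun G _ x => k0f_fix R (G := G) x

end K0gr

end Pool.Agent.Q143.KF
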