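import Pool.Agent.Q143.KZ.Abs

/-!
Vanishing: if all the elements of `L(N)` come from `L(Γ)` in `L(N ⋊ Γ)`, `Γ` torsion-free, then all
the elements of `L(N)` come from the trivial group.
-/

namespace Pool.Agent.Q143.KZ

open Pool.Agent.Y483 Pool.Agent.Y483.PI Pool.Agent.Y477.IW Pointwise CategoryTheory

universe v w

variable {L : GrpCat.{0} ⥤ AddCommGrpCat.{w}} {Γ N X : Type} [Group Γ] [Group N] [MulAction Γ X]
  {φ : Γ →* MulAut N}

theorem e_empty (us : USupp φ X) : us.e ((∅ : Finset X) : Set X) = 1 := by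
  ext1 n
  rw [Finset.coe_empty, us.empty]
  rfl

theorem ret_ret (us : USupp φ X) (S T : Finset X) (h : S ⊆ T) (x : FO L N) :
    fm L (us.e (S : Set X)) (fm L (us.e (T : Set X)) x) = fm L (us.e (S : Set X)) x := by
  rw [← lcomp]
  congr 2
  ext1 n
  rw [MonoidHom.comp_apply, us.inter, Set.inter_eq_self_of_subset_left (Finset.coe_subset.2 h)]

theorem ret_ret' (us : USupp φ X) (S T : Finset X) (h : T ⊆ S) (x : FO L N) :
    fm L (us.e (S : Set X)) (fm L (us.e (T : Set X)) x) = fm L (us.e (T : Set X)) x := by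
  rw [← lcomp]
  congr 2
  ext1 n
  rw [MonoidHom.comp_apply, us.inter, Set.inter_eq_self_of_subset_right (Finset.coe_subset.2 h)]

theorem vanish (us : USupp φ X) (hE : HasPTI L) (hC : ContL L)
    (hst : ∀ v : X, Finite (MulAction.stabilizer Γ v))
    (htf : ∀ H : Subgroup Γ, Finite H → H = ⊥)
    (h0 : ∀ x : FO L N, ∃ y : FO L Γ, fm L (SemidirectProduct.inl : N →* N ⋊[φ] Γ) x =
      fm L (SemidirectProduct.inr : Γ →* N ⋊[φ] Γ) y) (x : FO L N) :
    x = fm L (1 : N →* N) x := by
  classical
  have key : ∀ (S : Finset X) (x : FO L N), fm L (us.e (S : Set X)) x = x →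
      x = fm L (us.e ((∅ : Finset X) : Set X)) x := by
    intro S
    induction S using Finset.strongInduction with
    | H S ih =>
      intro x hx
      rcases S.eq_empty_or_nonempty with rfl | hS
      · exact hx.symm
      · have h1 := orbitsIndependent_of us hE hst htf 1 (fun _ => S) (fun _ => hS)
          (fun i j _ _ => Subsingleton.elim i j)
          (fun _ => x - fm L (us.e ((∅ : Finset X) : Set X)) x) (fun _ => ?_) (fun _ U hU => ?_)
        · obtain ⟨y, hy⟩ := h0 (x - fm L (us.e ((∅ : Finset X) : Set X)) x)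
          have h2 := h1 y (by rw [Fin.sum_univ_one]; exact hy) 0
          exact sub_eq_zero.1 h2
        · change fm L (us.e (S : Set X)) (x - fm L (us.e ((∅ : Finset X) : Set X)) x) = _
          rw [map_sub, hx, ret_ret' us S ∅ (Finset.empty_subset _)]
        · change fm L (us.e (U : Set X)) (x - fm L (us.e ((∅ : Finset X) : Set X)) x) = _
          have h3 := ih U hU (fm L (us.e (U : Set X)) x) (ret_ret us U U (le_refl U) x)
          rw [ret_ret us ∅ U (Finset.empty_subset _)] at h3
          rw [map_sub, ret_ret' us U ∅ (Finset.empty_subset _), ← h3, sub_self]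
  obtain ⟨X₀, hX⟩ := hC N x
  choose S hS using us.finite
  let F : Finset X := X₀.biUnion (fun n => (hS n).1.toFinset)
  have hF : fm L (us.e (F : Set X)) x = x := by
    apply hX
    intro n hn
    have h1 : S n ⊆ (F : Set X) := by
      intro s hs
      rw [Finset.mem_coe, Finset.mem_biUnion]
      exact ⟨n, hn, (hS n).1.mem_toFinset.mpr hs⟩
    conv_lhs => rw [← (hS n).2]
    rw [us.inter, Set.inter_eq_self_of_subset_right h1, (hS n).2]
  have h4 := key F x hF
  rwa [e_empty] at h4

/-- If `L(N ⋊ Γ)` vanishes, then `L(N)` vanishes. -/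
theorem vanish_zero (us : USupp φ X) (hE : HasPTI L) (hC : ContL L)
    (hst : ∀ v : X, Finite (MulAction.stabilizer Γ v))
    (htf : ∀ H : Subgroup Γ, Finite H → H = ⊥) (h0 : ∀ z : FO L (N ⋊[φ] Γ), z = 0)
    (x : FO L N) : x = 0 := by
  rw [vanish us hE hC hst htf (fun x => ⟨0, (h0 _).trans (h0 _).symm⟩) x]
  have e : (1 : N →* N) = (1 : N ⋊[φ] Γ →* N).comp SemidirectProduct.inl := rfl
  rw [e, lcomp, h0 (fm L SemidirectProduct.inl x), map_zero]

end Pool.Agent.Q143.KZ
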