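import Pool.Agent.Q143.KZ.K0R

/-!
Whitehead groups `Wh(R; G) = K_1(R[G]) / {[u g]}`: integral transfers along pairs of cocycles.
-/

namespace Pool.Agent.Q143.Wh

open Pool.Agent.Y483 Pool.Agent.Y477.IW Pool.Agent.Y483.PI CategoryTheory Pool.Agent.Q143.KZ
  Pool.Agent.Q143.KF

section Unit

variable {R S : Type} [Ring R] [Ring S]

/-- The class of a unit. -/
noncomputable def k1u (v : Rˣ) : K1 R :=
  K1.mk (Units.map (Matrix.scalar (Fin 1) : R →+* Matrix (Fin 1) (Fin 1) R).toMonoidHom v)

theorem k1u_mul (v w : Rˣ) : k1u (v * w) = k1u v + k1u w := by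
  unfold k1u
  rw [map_mul, K1.mk_mul]

theorem map_k1u (f : R →ₙ+* S) (v : Rˣ) : K1.map f (k1u v) = k1u (unzU f v) := by
  unfold k1u
  rw [K1.map_mk]
  congr 1
  apply Units.ext
  ext i j
  have hi : i = 0 := Subsingleton.elim _ _
  have hj : j = 0 := Subsingleton.elim _ _
  subst hi hj
  rw [unzU_val]
  change f ((Matrix.scalar (Fin 1) v.val) 0 0) + ((1 : Matrix (Fin 1) (Fin 1) S) 0 0 -
    f ((1 : Matrix (Fin 1) (Fin 1) R) 0 0)) = (Matrix.scalar (Fin 1) (unzU f v).val) 0 0
  rw [unzU_val]
  simp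

end Unit

section Triv

/-- The unit `u g` of the group ring. -/
noncomputable def gu {R G : Type} [Ring R] [Group G] (u : Rˣ) (g : G) : (MonoidAlgebra R G)ˣ where
  val := MonoidAlgebra.single g u.val
  inv := MonoidAlgebra.single g⁻¹ u⁻¹.val
  val_inv := by
    rw [MonoidAlgebra.single_mul_single, mul_inv_cancel, Units.mul_inv, MonoidAlgebra.one_def]
  inv_val := by
    rw [MonoidAlgebra.single_mul_single, inv_mul_cancel, Units.inv_mul, MonoidAlgebra.one_def]

/-- The class `[u g]` in `K_1(R[G])`. -/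
noncomputable def tu {R G : Type} [Ring R] [Group G] (u : Rˣ) (g : G) : KG R G := k1u (gu u g)

/-- The subgroup of `K_1(R[G])` generated by the classes `[u g]`, `u` a unit of `R`, `g ∈ G`. -/
noncomputable def triv (R G : Type) [Ring R] [Group G] : AddSubgroup (KG R G) :=
  AddSubgroup.closure {x | ∃ (u : Rˣ) (g : G), x = tu u g}

theorem grm_one {R S G K : Type} [Ring R] [Ring S] [Group G] [Group K] (c : R →ₙ+* S)
    (f : G →* K) : grm c f (1 : MonoidAlgebra R G) = MonoidAlgebra.single 1 (c 1) := by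
  rw [MonoidAlgebra.one_def, grm_single, map_one]

theorem kf_tu (R : Type) [Ring R] {G K : Type} [Group G] [Group K] (f : G →* K) (u : Rˣ) (g : G) :
    kf R f (tu u g) = tu u (f g) := by
  unfold tu
  change K1.map (grm (NonUnitalRingHom.id R) f) (k1u (gu u g)) = k1u (gu u (f g))
  rw [map_k1u]
  congr 1
  apply Units.ext
  rw [unzU_val]
  change grm (NonUnitalRingHom.id R) f (MonoidAlgebra.single g u.val) +
    (1 - grm (NonUnitalRingHom.id R) f 1) = MonoidAlgebra.single (f g) u.val
  rw [grm_one, grm_single, MonoidAlgebra.one_def]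
  change MonoidAlgebra.single (f g) u.val + (MonoidAlgebra.single 1 (1 : R) -
    MonoidAlgebra.single 1 (1 : R)) = _
  rw [sub_self, add_zero]

theorem triv_le (R : Type) [Ring R] {G K : Type} [Group G] [Group K] (f : G →* K) :
    triv R G ≤ (triv R K).comap (kf R f) := by
  unfold triv
  rw [AddSubgroup.closure_le]
  rintro x ⟨u, g, rfl⟩
  rw [SetLike.mem_coe, AddSubgroup.mem_comap, kf_tu]
  exact AddSubgroup.subset_closure ⟨u, f g, rfl⟩

/-- The Whitehead group `Wh(R; G) = K_1(R[G]) / {[u g]}`; for `R = ℤ` the units `u` are `1`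
and `-1` and this is the Whitehead group of `G`. -/
def WhG (R G : Type) [Ring R] [Group G] : Type := KG R G ⧸ triv R G

noncomputable instance (R G : Type) [Ring R] [Group G] : AddCommGroup (WhG R G) :=
  QuotientAddGroup.Quotient.addCommGroup (triv R G)

/-- The class in the Whitehead group. -/
noncomputable def WhG.mk {R G : Type} [Ring R] [Group G] : KG R G →+ WhG R G := QuotientAddGroup.mk' (triv R G)

theorem WhG.mk_surj {R G : Type} [Ring R] [Group G] : Function.Surjective (WhG.mk (R := R) (G := G)) :=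
  QuotientAddGroup.mk'_surjective _

/-- The map of Whitehead groups. -/
noncomputable def whMap (R : Type) [Ring R] {G K : Type} [Group G] [Group K] (f : G →* K) :
    WhG R G →+ WhG R K := QuotientAddGroup.map (triv R G) (triv R K) (kf R f) (triv_le R f)

theorem whMap_mk (R : Type) [Ring R] {G K : Type} [Group G] [Group K] (f : G →* K) (x : KG R G) :
    whMap R f (WhG.mk x) = WhG.mk (kf R f x) := rfl

theorem whMap_id (R : Type) [Ring R] {G : Type} [Group G] (x : WhG R G) :
    whMap R (MonoidHom.id G) x = x := by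
  obtain ⟨x, rfl⟩ := WhG.mk_surj x
  rw [whMap_mk, kf_id]

theorem whMap_comp (R : Type) [Ring R] {G K M : Type} [Group G] [Group K] [Group M] (g : K →* M)
    (f : G →* K) (x : WhG R G) : whMap R (g.comp f) x = whMap R g (whMap R f x) := by
  obtain ⟨x, rfl⟩ := WhG.mk_surj x
  rw [whMap_mk, whMap_mk, whMap_mk, kf_comp]

/-- The functor `G ↦ Wh(R; G)`. -/
noncomputable def whF (R : Type) [Ring R] : GrpCat.{0} ⥤ AddCommGrpCat.{0} where
  obj G := AddCommGrpCat.of (WhG R G)
  map f := AddCommGrpCat.ofHom (whMap R f.hom)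
  map_id G := by
    apply AddCommGrpCat.hom_ext
    ext x
    exact whMap_id R x
  map_comp f g := by
    apply AddCommGrpCat.hom_ext
    ext x
    exact whMap_comp R g.hom f.hom x

end Triv

end Pool.Agent.Q143.Wh
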