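import Pool.Agent.Q143.KZ.Wh

/-!
Whitehead groups: the transfer maps preserve the classes of the trivial units.
-/

namespace Pool.Agent.Q143.Wh

open Pool.Agent.Y483 Pool.Agent.Y477.IW Pool.Agent.Y483.PI CategoryTheory Pool.Agent.Q143.KZ
  Pool.Agent.Q143.KF

section Ident

variable {R G A K : Type} [Ring R] [Group G] [Group K]

/-- The element `(1, 0)` of `R × Rᵒᵖ`. -/
noncomputable def e1 (R : Type) [Ring R] : Sw R := swI R 1

theorem e1_mul (r : R) : e1 R * swI R r = swI R r := by
  unfold e1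
  rw [← map_mul, one_mul]

theorem e1_idem : e1 R * e1 R = e1 R := e1_mul 1

/-- The label of the decomposition. -/
def lb (κ : FinPair G A K) (g : G) (b : A) : K :=
  κ.c g ((κ.σ g).symm b) * (κ.d g ((κ.σ g).symm b))⁻¹

open Classical in
/-- The finite set of the decomposition. -/
noncomputable def lY (κ : FinPair G A K) (g : G) : Finset A :=
  (κ.fin g).toFinset.image (κ.σ g)

theorem not_mem_lY (κ : FinPair G A K) (g : G) {b : A} (h : b ∉ lY κ g) :
    κ.c g ((κ.σ g).symm b) = κ.d g ((κ.σ g).symm b) := by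
  classical
  by_contra hne
  apply h
  unfold lY
  rw [Finset.mem_image]
  exact ⟨(κ.σ g).symm b, by rw [Set.Finite.mem_toFinset]; exact hne,
    Equiv.apply_symm_apply _ _⟩

/-- The unit of `(R × Rᵒᵖ)[G]` given by `u g`. -/
noncomputable def du (u : Rˣ) (g : G) : (MonoidAlgebra (Sw R) G)ˣ :=
  unzU (grm (swI R) (MonoidHom.id G)) (gu u g)

theorem du_val (u : Rˣ) (g : G) : (du u g).val =
    MonoidAlgebra.single g (swI R u.val) + (1 - MonoidAlgebra.single 1 (e1 R)) := by
  unfold du
  rw [unzU_val, grm_one]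
  change grm (swI R) (MonoidHom.id G) (MonoidAlgebra.single g u.val) + _ = _
  rw [grm_single]
  rfl

theorem dbl_tu (u : Rˣ) (g : G) : km (swI R) (MonoidHom.id G) (tu u g) = k1u (du u g) :=
  map_k1u _ _

/-- The value of the label homomorphism. -/
noncomputable def lh (k : K) : Multiplicative ℤ →* K := zpowersHom K k

theorem lh_one (k : K) : lh k (Multiplicative.ofAdd 1) = k := by
  unfold lh
  simp

theorem grMap_one {G₁ K₁ : Type} [Group G₁] [Group K₁] (S : Type) [Ring S] [StarRing S]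
    (f : G₁ →* K₁) : grMap S f (1 : MonoidAlgebra S G₁) = 1 := by
  rw [MonoidAlgebra.one_def, grMap_single, map_one, MonoidAlgebra.one_def]

theorem mapLab (k : K) : grMap (Sw R) (lh k) (du (1 : Rˣ) (Multiplicative.ofAdd (1 : ℤ))).val =
    MonoidAlgebra.single k (e1 R) + (1 - MonoidAlgebra.single 1 (e1 R)) := by
  have h1 : grMap (Sw R) (lh k) (MonoidAlgebra.single (Multiplicative.ofAdd (1 : ℤ))
      (swI R (1 : Rˣ).val)) = MonoidAlgebra.single k (e1 R) := by
    rw [grMap_single, lh_one]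
    rfl
  have h2 : grMap (Sw R) (lh k) (MonoidAlgebra.single (1 : Multiplicative ℤ) (e1 R)) =
      MonoidAlgebra.single 1 (e1 R) := by
    rw [grMap_single]
    congr 1
    exact map_one (lh k)
  rw [du_val, map_add, map_sub, h1, h2, grMap_one]

theorem pHom_one (κ : FinPair G A K) : pHom (Sw R) κ 1 = 1 := by
  rw [MonoidAlgebra.one_def]
  apply DD.ext
  · rw [pHom_fst]
    apply Op.ext'
    intro a
    rw [monoOp_fn, map_one, cocycle_one κ.mul_c, ← MonoidAlgebra.one_def, mul_one]
    rfl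
  · rw [pHom_snd]
    apply Op.ext'
    intro a
    rw [monoOp_fn, map_one, cocycle_one κ.mul_d, ← MonoidAlgebra.one_def, mul_one]
    rfl

/-- The homomorphisms of the decomposition. -/
noncomputable def lph (R : Type) [Ring R] (κ : FinPair G A K) (g : G) (b : A) :
    MonoidAlgebra (Sw R) (Multiplicative ℤ) →⋆ₙ+* MonoidAlgebra (Sw R) K :=
  grMap (Sw R) (lh (lb κ g b))

theorem fst_sub {S : Type} [Ring S] [StarRing S] (x y : DD S A) : (x - y).fst = x.fst - y.fst :=
  rfl

theorem snd_sub {S : Type} [Ring S] [StarRing S] (x y : DD S A) : (x - y).snd = x.snd - y.snd :=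
  rfl

theorem val_c (κ : FinPair G A K) (u : Rˣ) (g : G) :
    (unzU (pHom (Sw R) κ).toNonUnitalRingHom (du u g)).val =
      pHom (Sw R) κ (MonoidAlgebra.single g (swI R u.val)) +
        (1 - pHom (Sw R) κ (MonoidAlgebra.single 1 (e1 R))) := by
  have h1 : (unzU (pHom (Sw R) κ).toNonUnitalRingHom (du u g)).val =
      pHom (Sw R) κ (du u g).val := by
    rw [unzU_val]
    change pHom (Sw R) κ (du u g).val + (1 - pHom (Sw R) κ 1) = _
    rw [pHom_one, sub_self, add_zero]
  rw [h1, du_val, map_add, map_sub, pHom_one]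

theorem fst_c (κ : FinPair G A K) (u : Rˣ) (g : G) (a : A) :
    ((unzU (pHom (Sw R) κ).toNonUnitalRingHom (du u g)).val).fst.fn (Finsupp.single a 1) =
      Finsupp.single (κ.σ g a) (MonoidAlgebra.single (κ.c g a) (swI R u.val)) +
        Finsupp.single a (1 - MonoidAlgebra.single 1 (e1 R)) := by
  rw [val_c, DD.fst_add, fst_sub, pHom_fst, pHom_fst,
    Op.fn_add, Op.fn_sub, monoOp_fn, monoOp_fn, map_one, cocycle_one κ.mul_c, mul_one, mul_one,
    Finsupp.single_sub]
  rfl

theorem snd_c (κ : FinPair G A K) (u : Rˣ) (g : G) (a : A) :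
    ((unzU (pHom (Sw R) κ).toNonUnitalRingHom (du u g)).val).snd.fn (Finsupp.single a 1) =
      Finsupp.single (κ.σ g a) (MonoidAlgebra.single (κ.d g a) (swI R u.val)) +
        Finsupp.single a (1 - MonoidAlgebra.single 1 (e1 R)) := by
  rw [val_c, DD.snd_add, snd_sub, pHom_snd, pHom_snd,
    Op.fn_add, Op.fn_sub, monoOp_fn, monoOp_fn, map_one, cocycle_one κ.mul_d, mul_one, mul_one,
    Finsupp.single_sub]
  rfl

open Classical in
theorem fst_Y (κ : FinPair G A K) (g : G) (b : A) (s : MonoidAlgebra (Sw R) K) :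
    ((unzU (blockHom (lph R κ g) (lY κ g)).toNonUnitalRingHom
      (du (1 : Rˣ) (Multiplicative.ofAdd (1 : ℤ)))).val).fst.fn (Finsupp.single b s) =
      Finsupp.single b ((if b ∈ lY κ g then MonoidAlgebra.single (lb κ g b) (e1 R) +
        (1 - MonoidAlgebra.single 1 (e1 R)) else 1) * s) := by
  rw [unzU_val, DD.fst_add, fst_sub]
  change (diagOp (fun a => if a ∈ lY κ g then lph R κ g a _ else 0) + (1 -
    diagOp (fun a => if a ∈ lY κ g then lph R κ g a 1 else 0))).fn (Finsupp.single b s) = _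
  rw [Op.fn_add, Op.fn_sub, diagOp_fn, diagOp_fn, Op.fn_one]
  by_cases hb : b ∈ lY κ g
  · rw [if_pos hb, if_pos hb, if_pos hb]
    unfold lph
    rw [mapLab, grMap_one, one_mul, sub_self, add_zero]
  · rw [if_neg hb, if_neg hb, if_neg hb, zero_mul, Finsupp.single_zero, zero_add, sub_zero,
      one_mul]

theorem snd_Y (κ : FinPair G A K) (g : G) (v : A →₀ MonoidAlgebra (Sw R) K) :
    ((unzU (blockHom (lph R κ g) (lY κ g)).toNonUnitalRingHom
      (du (1 : Rˣ) (Multiplicative.ofAdd (1 : ℤ)))).val).snd.fn v = v := by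
  rw [unzU_val, DD.snd_add, snd_sub]
  change ((0 : Op _ A) + (1 - 0)).fn v = v
  rw [sub_zero, zero_add, Op.fn_one]

theorem lab_mul (k d : K) (r : R) :
    (MonoidAlgebra.single k (e1 R) + (1 - MonoidAlgebra.single 1 (e1 R))) *
      MonoidAlgebra.single d (swI R r) = MonoidAlgebra.single (k * d) (swI R r) := by
  rw [add_mul, sub_mul, one_mul, MonoidAlgebra.single_mul_single,
    MonoidAlgebra.single_mul_single, e1_mul, one_mul, sub_self, add_zero]

theorem lab_mul' (k : K) :
    (MonoidAlgebra.single k (e1 R) + (1 - MonoidAlgebra.single 1 (e1 R))) *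
      (1 - MonoidAlgebra.single 1 (e1 R)) = 1 - MonoidAlgebra.single 1 (e1 R) := by
  rw [add_mul, mul_sub, mul_one, mul_sub, mul_one, sub_mul, one_mul,
    MonoidAlgebra.single_mul_single, MonoidAlgebra.single_mul_single, e1_idem, mul_one, mul_one,
    sub_self, zero_add, sub_self, sub_zero]

/-- The decomposition of the image of a trivial unit. -/
theorem ident (κ : FinPair G A K) (u : Rˣ) (g : G) :
    unzU (pHom (Sw R) κ).toNonUnitalRingHom (du u g) =
      unzU (blockHom (lph R κ g) (lY κ g)).toNonUnitalRingHom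
        (du (1 : Rˣ) (Multiplicative.ofAdd (1 : ℤ))) *
      unzU (pHom (Sw R) (pD κ)).toNonUnitalRingHom (du u g) := by
  classical
  apply Units.ext
  rw [Units.val_mul]
  apply DD.ext
  · rw [DD.fst_mul]
    apply Op.ext'
    intro a
    have hσ : (pD κ).σ g a = κ.σ g a := rfl
    rw [Op.fn_mul, fst_c, fst_c, map_add, hσ, fst_Y, fst_Y]
    change Finsupp.single (κ.σ g a) (MonoidAlgebra.single (κ.c g a) _) + _ =
      Finsupp.single (κ.σ g a) (_ * MonoidAlgebra.single (κ.d g a) _) + _
    congr 1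
    · congr 1
      by_cases h : κ.σ g a ∈ lY κ g
      · rw [if_pos h, lab_mul]
        congr 1
        unfold lb
        rw [Equiv.symm_apply_apply, inv_mul_cancel_right]
      · rw [if_neg h, one_mul]
        have h2 := not_mem_lY κ g h
        rw [Equiv.symm_apply_apply] at h2
        rw [h2]
    · congr 1
      by_cases h : a ∈ lY κ g
      · rw [if_pos h, lab_mul']
      · rw [if_neg h, one_mul]
  · rw [DD.snd_mul]
    apply Op.ext'
    intro a
    rw [Op.fn_mul, snd_c, snd_c, snd_Y]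
    rfl

theorem lph_tu (κ : FinPair G A K) (g : G) (b : A) :
    kFun.map (lph R κ g b) (k1u (du (1 : Rˣ) (Multiplicative.ofAdd (1 : ℤ)))) =
      km (swI R) (MonoidHom.id K) (tu (1 : Rˣ) (lb κ g b)) := by
  have h1 := km_nat (R := R) (lh (lb κ g b)) (tu (1 : Rˣ) (Multiplicative.ofAdd (1 : ℤ)))
  have h2 := kf_tu R (lh (lb κ g b)) (1 : Rˣ) (Multiplicative.ofAdd (1 : ℤ))
  rw [lh_one] at h2
  rw [dbl_tu] at h1
  refine h1.symm.trans ?_
  exact congrArg (km (swI R) (MonoidHom.id K)) h2

/-- The image of a trivial unit under the transfer. -/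
theorem tr_tu (κ : FinPair G A K) (a₀ : A) (u : Rˣ) (g : G) :
    kFun.map (pHom (Sw R) κ) (km (swI R) (MonoidHom.id G) (tu u g)) -
      kFun.map (pHom (Sw R) (pD κ)) (km (swI R) (MonoidHom.id G) (tu u g)) =
      kFun.map (corner (MonoidAlgebra (Sw R) K) A a₀)
        (km (swI R) (MonoidHom.id K) (∑ b ∈ lY κ g, tu (1 : Rˣ) (lb κ g b))) := by
  classical
  have h1 : kFun.map (pHom (Sw R) κ) (k1u (du u g)) =
      k1u (unzU (pHom (Sw R) κ).toNonUnitalRingHom (du u g)) := map_k1u _ _
  have h2 : kFun.map (pHom (Sw R) (pD κ)) (k1u (du u g)) =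
      k1u (unzU (pHom (Sw R) (pD κ)).toNonUnitalRingHom (du u g)) := map_k1u _ _
  have h3 : kFun.map (blockHom (lph R κ g) (lY κ g))
      (k1u (du (1 : Rˣ) (Multiplicative.ofAdd (1 : ℤ)))) =
      k1u (unzU (blockHom (lph R κ g) (lY κ g)).toNonUnitalRingHom
        (du (1 : Rˣ) (Multiplicative.ofAdd (1 : ℤ)))) := map_k1u _ _
  rw [dbl_tu, h1, h2, ident, k1u_mul]
  refine (add_sub_cancel_right (G := kFun.obj (DD (MonoidAlgebra (Sw R) K) A)) _ _).trans ?_
  refine h3.symm.trans ?_
  refine (kFun.map_blockHom (lph R κ g) (lY κ g)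
    (k1u (du (1 : Rˣ) (Multiplicative.ofAdd (1 : ℤ))))).trans ?_
  refine Eq.trans ?_ (congrArg (kFun.map (corner (MonoidAlgebra (Sw R) K) A a₀))
    (map_sum (km (swI R) (MonoidHom.id K)) (fun b => tu (1 : Rˣ) (lb κ g b)) (lY κ g)).symm)
  refine Eq.trans ?_ (map_sum (kFun.map (corner (MonoidAlgebra (Sw R) K) A a₀))
    (fun b => km (swI R) (MonoidHom.id K) (tu (1 : Rˣ) (lb κ g b))) (lY κ g)).symm
  apply Finset.sum_congr rfl
  intro b _
  rw [kFun.map_corner b a₀, lph_tu]
  rfl

end Ident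

/-! ### Transfers for the Whitehead groups -/

section Main

variable (R : Type) [Ring R]

theorem hasPTI_whF : HasPTI (whF R) := by
  classical
  intro G A K _ _ κ
  by_cases hA : Nonempty A
  · obtain ⟨a₀⟩ := hA
    let ι : KG R K →+ kFun.obj (DD (MonoidAlgebra (Sw R) K) A) :=
      (kFun.map (corner (MonoidAlgebra (Sw R) K) A a₀)).comp (km (swI R) (MonoidHom.id K))
    let Φ : KG R G →+ kFun.obj (DD (MonoidAlgebra (Sw R) K) A) :=
      (kFun.map (pHom (Sw R) κ) - kFun.map (pHom (Sw R) (pD κ))).comp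
        (km (swI R) (MonoidHom.id G))
    have hι : Function.Injective ι := (kFun.corner_inj _ A a₀).comp (km_inj K)
    let T := (triv R K).map ι
    have hT : triv R G ≤ ((QuotientAddGroup.mk' T).comp Φ).ker := by
      unfold triv
      rw [AddSubgroup.closure_le]
      rintro x ⟨u, g, rfl⟩
      change QuotientAddGroup.mk' T (Φ (tu u g)) = 0
      rw [← AddMonoidHom.mem_ker, QuotientAddGroup.ker_mk']
      refine ⟨∑ b ∈ lY κ g, tu (1 : Rˣ) (lb κ g b), ?_, ?_⟩
      · apply AddSubgroup.sum_mem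
        intro b _
        exact AddSubgroup.subset_closure ⟨1, _, rfl⟩
      · exact (tr_tu κ a₀ u g).symm
    let Φ' : WhG R G →+ (kFun.obj (DD (MonoidAlgebra (Sw R) K) A) ⧸ T) :=
      QuotientAddGroup.lift (triv R G) ((QuotientAddGroup.mk' T).comp Φ) hT
    let ι' : WhG R K →+ (kFun.obj (DD (MonoidAlgebra (Sw R) K) A) ⧸ T) :=
      QuotientAddGroup.map (triv R K) T ι (AddSubgroup.le_comap_map _ _)
    have hinj : Function.Injective ι' := by
      rw [injective_iff_map_eq_zero]
      intro x hx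
      obtain ⟨y, rfl⟩ := WhG.mk_surj x
      have h1 : QuotientAddGroup.mk' T (ι y) = 0 := hx
      rw [← AddMonoidHom.mem_ker, QuotientAddGroup.ker_mk'] at h1
      obtain ⟨z, hz, hzy⟩ := h1
      have h2 : z = y := hι hzy
      rw [← h2]
      exact (QuotientAddGroup.eq_zero_iff z).2 hz
    refine ⟨(kFun.obj (DD (MonoidAlgebra (Sw R) K) A) ⧸ T), inferInstance, Φ', ι', hinj, ?_⟩
    · intro G₀ _ j Y lc ld hY1 hY2 x
      obtain ⟨y, rfl⟩ := WhG.mk_surj x
      have h1 := pre kFun (Sw R) κ a₀ j Y lc ld hY1 hY2 (km (swI R) (MonoidHom.id G₀) y)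
      have h2 : Φ (kf R j y) = ι (∑ a ∈ Y, (kf R (lc a) y - kf R (ld a) y)) := by
        have e : ∀ {P : Type} [Group P] (f : G₀ →* P), kFun.map (grMap (Sw R) f)
            (km (swI R) (MonoidHom.id G₀) y) = km (swI R) (MonoidHom.id P) (kf R f y) :=
          fun f => (km_nat f y).symm
        simp only [e] at h1
        refine Eq.trans h1 ?_
        change _ = kFun.map (corner (MonoidAlgebra (Sw R) K) A a₀) (km (swI R) (MonoidHom.id K)
          (∑ a ∈ Y, (kf R (lc a) y - kf R (ld a) y)))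
        refine congrArg (kFun.map (corner (MonoidAlgebra (Sw R) K) A a₀)) ?_
        refine Eq.trans ?_ (map_sum (km (swI R) (MonoidHom.id K))
          (fun a => kf R (lc a) y - kf R (ld a) y) Y).symm
        apply Finset.sum_congr rfl
        intro a _
        exact (map_sub (km (swI R) (MonoidHom.id K)) _ _).symm
      change QuotientAddGroup.mk' T (Φ (kf R j y)) =
        ι' (∑ a ∈ Y, (WhG.mk (kf R (lc a) y) - WhG.mk (kf R (ld a) y)))
      rw [h2]
      change ι' (WhG.mk (∑ a ∈ Y, (kf R (lc a) y - kf R (ld a) y))) = _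
      refine congrArg ι' ?_
      refine (map_sum (WhG.mk (R := R) (G := K)) (fun a => kf R (lc a) y - kf R (ld a) y) Y).trans
        ?_
      apply Finset.sum_congr rfl
      intro a _
      exact map_sub _ _ _
  · refine ⟨(whF R).obj (GrpCat.of K), inferInstance, 0, AddMonoidHom.id _,
      Function.injective_id, ?_⟩
    intro G₀ _ j Y lc ld hY1 hY2 x
    have : Y = ∅ := by
      rw [Finset.eq_empty_iff_forall_notMem]
      intro a _
      exact hA ⟨a⟩
    rw [this, Finset.sum_empty, map_zero]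
    rfl

theorem innerTrivial_whF : InnerTrivial (whF R) := by
  intro G g
  apply AddCommGrpCat.hom_ext
  ext x
  obtain ⟨y, rfl⟩ := WhG.mk_surj x
  have h := kgr_inner R G g
  have h2 := congrArg (fun f => WhG.mk (f.hom y)) h
  exact h2

theorem contL_whF : ContL (whF R) := by
  intro G _ x
  obtain ⟨y, rfl⟩ := WhG.mk_surj x
  obtain ⟨X, hX⟩ := cont_k G y
  exact ⟨X, fun f hf => congrArg WhG.mk (hX f hf)⟩

end Main

end Pool.Agent.Q143.Wh
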